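import Mathlib
import Pool.Agent.H67.LX.Bas
import Pool.Agent.H23.DM.Kap
import Pool.Agent.H23.DM.La1

/-!
Bridge from the definitions of `H67/LX` to the modules `H23/DM` (helper23).
-/

set_option linter.unusedSectionVars false

open MeasureTheory Filter Matrix
open scoped Topology
open Pool.Agent.H73.PZ
open Pool.Agent.H23.DM

namespace Pool.Agent.H23.BR

open Pool.Agent.H67.LX

section Base

variable {p : ℕ} [Fact p.Prime] {n : ℕ} {Γ : Subgroup (SLn p n)} {F : Type}
    [TopologicalSpace F] [MeasurableSpace F] [MulAction (SLn p n) F]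

theorem hsp (B : Base Γ F) : HSp p n F B.h :=
  ⟨B.prob, B.inv, fun U h1 h2 => pos_iff_ne_zero.2 (B.full U h1 h2), B.orbit_open, B.trans⟩

theorem csF (B : Base Γ F) : ContinuousSMul (SLn p n) F := ⟨B.cont⟩

/-- The cocycle of the base is jointly locally constant. -/
theorem al_loc (B : Base Γ F) (g : SLn p n) (f : F) :
    ∀ᶠ q : SLn p n × F in 𝓝 (g, f), B.al q.1 q.2 = B.al g f := by
  have h1 : ∀ᶠ q : SLn p n × F in 𝓝 (g, f), q.1 * g⁻¹ ∈ KM p n 2 := by
    have hc : Continuous fun q : SLn p n × F => q.1 * g⁻¹ := continuous_fst.mul continuous_const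
    have h2 := hc.continuousAt (x := (g, f))
    refine h2.eventually ((isOpen_KM 2).mem_nhds ?_)
    change g * g⁻¹ ∈ KM p n 2
    rw [mul_inv_cancel]
    exact one_mem _
  have h3' : IsOpen {f' : F | B.al g f' = B.al g f} := (B.al_lc g).isOpen_fiber _
  have h3 : ∀ᶠ q : SLn p n × F in 𝓝 (g, f), q.2 ∈ {f' : F | B.al g f' = B.al g f} :=
    continuous_snd.continuousAt.eventually (h3'.mem_nhds rfl)
  filter_upwards [h1, h3] with q hq1 hq3
  have h4 := B.al_mul (q.1 * g⁻¹) g q.2
  rw [inv_mul_cancel_right, B.al_K _ hq1, one_mul] at h4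
  rw [h4]
  exact hq3

theorem al_one (B : Base Γ F) (f : F) : B.al 1 f = 1 := B.al_K 1 (one_mem _) f

end Base

section Sus

variable {p : ℕ} [Fact p.Prime] {n : ℕ} {Γ : Subgroup (SLn p n)} {F M : Type}
    [TopologicalSpace F] [CompactSpace F] [T2Space F] [SecondCountableTopology F]
    [MeasurableSpace F] [BorelSpace F] [MulAction (SLn p n) F]
    [TopologicalSpace M] [CompactSpace M] [T2Space M] [SecondCountableTopology M]
    [MeasurableSpace M] [BorelSpace M] [MulAction Γ M]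
    [MulAction (SLn p n) (F × M)] [MulAction (AZ n) (F × M)]

/-- A function of the cocycle and of the fibre coordinate is jointly continuous. -/
theorem cont_fib (S : Sus Γ F M) {β : Type} [TopologicalSpace β] {φ : Γ → M → β}
    (hφ : ∀ γ, Continuous (φ γ)) :
    Continuous fun q : SLn p n × (F × M) => φ (S.B.al q.1 q.2.1) q.2.2 := by
  rw [continuous_iff_continuousAt]
  rintro ⟨g, f, m⟩
  have h1 : ContinuousAt (fun q : SLn p n × (F × M) => φ (S.B.al g f) q.2.2) (g, f, m) :=
    ((hφ _).comp (continuous_snd.comp continuous_snd)).continuousAt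
  refine h1.congr ?_
  have h2 : Tendsto (fun q : SLn p n × (F × M) => (q.1, q.2.1)) (𝓝 (g, f, m)) (𝓝 (g, f)) :=
    (continuous_fst.prodMk (continuous_fst.comp continuous_snd)).tendsto (g, f, m)
  filter_upwards [h2.eventually (al_loc S.B g f)] with q hq
  rw [← hq]

theorem csX (S : Sus Γ F M) : ContinuousSMul (SLn p n) (F × M) := by
  refine ⟨?_⟩
  have h0 : (fun q : SLn p n × (F × M) => q.1 • q.2) =
      fun q : SLn p n × (F × M) => (q.1 • q.2.1, S.B.al q.1 q.2.1 • q.2.2) := by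
    funext q
    exact S.smul_def q.1 q.2
  rw [h0]
  exact (S.B.cont.comp (continuous_fst.prodMk (continuous_fst.comp continuous_snd))).prodMk
    (cont_fib S S.V.smul_cont)

theorem J_ne (S : Sus Γ F M) (γ : Γ) (m : M) : S.V.J γ m ≠ 0 := by
  intro h
  have h1 := S.V.J_mul γ⁻¹ γ m
  rw [inv_mul_cancel, h, Matrix.mul_zero] at h1
  exact S.V.J_one m h1

theorem C_ne (S : Sus Γ F M) (g : SLn p n) (x : F × M) : S.C g x ≠ 0 := J_ne S _ _

theorem fn_C_pos (S : Sus Γ F M) (g : SLn p n) (x : F × M) : 0 < fn (S.C g x) := by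
  refine lt_of_le_of_ne (fn_nonneg _) fun h => C_ne S g x ?_
  exact fn_eq_zero.1 h.symm

theorem fn_J_pos (S : Sus Γ F M) (γ : Γ) (m : M) : 0 < fn (S.V.J γ m) := by
  refine lt_of_le_of_ne (fn_nonneg _) fun h => J_ne S γ m ?_
  exact fn_eq_zero.1 h.symm

theorem C_mul (S : Sus Γ F M) (g g' : SLn p n) (x : F × M) :
    S.C (g * g') x = S.C g (g' • x) * S.C g' x := by
  unfold Sus.C
  rw [S.B.al_mul, S.V.J_mul, S.smul_def]

theorem cont_fnJ (S : Sus Γ F M) (γ : Γ) : Continuous fun m => fn (S.V.J γ m) := by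
  unfold fn
  refine Real.continuous_sqrt.comp ?_
  exact continuous_finsetSum _ fun i _ => continuous_finsetSum _ fun j _ => (S.V.J_cont γ i j).pow 2

theorem sub1 (S : Sus Γ F M) : Sub1 S.L := by
  refine ⟨?_, fun g g' x => ?_⟩
  · have h1 : Continuous fun q : SLn p n × (F × M) => fn (S.V.J (S.B.al q.1 q.2.1) q.2.2) :=
      cont_fib S (φ := fun γ m => fn (S.V.J γ m)) (cont_fnJ S)
    exact h1.log fun q => (fn_J_pos S _ _).ne'
  · unfold Sus.L
    rw [← Real.log_mul (fn_C_pos S _ _).ne' (fn_C_pos S _ _).ne']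
    refine Real.log_le_log (fn_C_pos S _ _) ?_
    rw [C_mul]
    exact fn_mul_le _ _

/-- `L 1 ≥ 0`. -/
theorem L_one_nonneg (S : Sus Γ F M) (x : F × M) : 0 ≤ S.L 1 x := by
  unfold Sus.L
  refine Real.log_nonneg ?_
  have h1 := C_mul S 1 1 x
  rw [one_mul, one_smul] at h1
  have h2 : fn (S.C 1 x) ≤ fn (S.C 1 x) * fn (S.C 1 x) := by
    conv_lhs => rw [h1]
    exact fn_mul_le _ _
  nlinarith [fn_C_pos S 1 x]

end Sus

end Pool.Agent.H23.BR
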