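import Mathlib
import Pool.Agent.H23.BR.Bas
import Pool.Agent.H23.DM.Kp1
import Pool.Agent.H23.DM.Av4

/-!
Bridge, conversions: `AA p n` and `AZ n`, `Sys`, `GB` and `kap` (helper23).
-/

set_option linter.unusedSectionVars false

open MeasureTheory Filter Matrix
open scoped Topology
open Pool.Agent.H73.PZ

namespace Pool.Agent.H23.BR

open Pool.Agent.H67.LX Pool.Agent.H23.DM

section Grp

variable {p : ℕ} [Fact p.Prime] {n : ℕ}

/-- The element of `AA p n` given by an element of `AZ n`. -/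
noncomputable def toA (p : ℕ) [Fact p.Prime] {n : ℕ} (a : AZ n) : AA p n := ⟨dgh p n a, ex a, ex_sum a, rfl⟩

theorem toA_coe (a : AZ n) : ((toA p a : AA p n) : SLn p n) = dgh p n a := rfl

theorem exists_AZ (t : AA p n) : ∃ a : AZ n, toA p a = t := by
  obtain ⟨g, a, ha, rfl⟩ := t
  exact ⟨H67.LX.mkA a ha, rfl⟩

theorem exists_AZ' {g : SLn p n} (hg : g ∈ AA p n) : ∃ a : AZ n, dgh p n a = g := by
  obtain ⟨a, ha⟩ := exists_AZ (⟨g, hg⟩ : AA p n)
  exact ⟨a, congrArg Subtype.val ha⟩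

variable {X : Type} [MeasurableSpace X] [MulAction (SLn p n) X] {μ : Measure X}

theorem ainv_iff : DM.AInv p n μ ↔ ∀ a : AZ n, Inv (dgh p n a) μ := by
  refine ⟨fun h a => h (toA p a), fun h t => ?_⟩
  obtain ⟨a, rfl⟩ := exists_AZ t
  exact h a

theorem uinv_iff {i j : Fin n} (h : i ≠ j) : DM.UInv p μ h ↔ H67.LX.UInv p i j μ :=
  ⟨fun h1 _ x => h1 x, fun h1 x => h1 h x⟩

theorem ui_iff {I : Set (Fin n)} : UI p μ I ↔ ∀ i ∈ I, ∀ j ∉ I, H67.LX.UInv p i j μ :=
  ⟨fun h i hi j hj hij => h i j hij hi hj, fun h i j hij hi hj => h i hi j hj hij⟩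

theorem sys_AZ [MulAction (AZ n) X] (hs : ∀ (a : AZ n) (x : X), a • x = dgh p n a • x)
    (h : Sys (AA p n) X μ) : Sys (AZ n) X μ := by
  have hf : ∀ a : AZ n, (fun x : X => a • x) = fun x : X => toA p a • x := fun a => by
    funext x
    exact hs a x
  refine ⟨h.prob, fun a => ?_, fun E hE hEa => h.erg E hE fun t => ?_⟩
  · rw [hf a]
    exact h.mp (toA p a)
  · obtain ⟨a, rfl⟩ := exists_AZ t
    rw [← hf a]
    exact hEa a

theorem sys_AA [MulAction (AZ n) X] (hs : ∀ (a : AZ n) (x : X), a • x = dgh p n a • x)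
    (h : Sys (AZ n) X μ) : Sys (AA p n) X μ := by
  have hf : ∀ a : AZ n, (fun x : X => a • x) = fun x : X => toA p a • x := fun a => by
    funext x
    exact hs a x
  refine ⟨h.prob, fun t => ?_, fun E hE hEa => h.erg E hE fun a => ?_⟩
  · obtain ⟨a, rfl⟩ := exists_AZ t
    rw [← hf a]
    exact h.mp a
  · rw [hf a]
    exact hEa (toA p a)

end Grp

section Sus

variable {p : ℕ} [Fact p.Prime] {n : ℕ} {Γ : Subgroup (SLn p n)} {F M : Type}
    [TopologicalSpace F] [CompactSpace F] [T2Space F] [SecondCountableTopology F]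
    [MeasurableSpace F] [BorelSpace F] [MulAction (SLn p n) F]
    [TopologicalSpace M] [CompactSpace M] [T2Space M] [SecondCountableTopology M]
    [MeasurableSpace M] [BorelSpace M] [MulAction Γ M]
    [MulAction (SLn p n) (F × M)] [MulAction (AZ n) (F × M)]

theorem GB_iff (S : Sus Γ F M) (μ : ProbabilityMeasure (F × M)) (a : AZ n) (c : ℝ) :
    S.GB (μ : Measure (F × M)) a c ↔ c ≤ kap S.L (dgh p n a) (μ : Measure (F × M)) := by
  haveI := csX S
  rw [le_kap_iff (sub1 S)]
  refine ⟨fun h T => ?_, fun h T => ?_⟩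
  · have h1 := h (T + 1)
    push_cast at h1
    exact h1
  · rcases T with _ | T
    · rw [pow_zero]
      push_cast
      rw [mul_zero]
      exact integral_nonneg fun x => L_one_nonneg S x
    · have h1 := h T
      push_cast
      exact h1

theorem sys_AZ' (S : Sus Γ F M) {μ : Measure (F × M)} (h : Sys (AA p n) (F × M) μ) :
    Sys (AZ n) (F × M) μ := sys_AZ S.smul_A h

theorem sys_AA' (S : Sus Γ F M) {μ : Measure (F × M)} (h : Sys (AZ n) (F × M) μ) :
    Sys (AA p n) (F × M) μ := sys_AA S.smul_A h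

end Sus

end Pool.Agent.H23.BR
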