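import Mathlib
import Pool.Agent.H23.BR.Cvt
import Pool.Agent.H23.DM.Er2

/-!
Bridge: ergodic measures with maximal growth rate, version of `exists_max` (helper56) without the
projection to the base (helper23).
-/

set_option linter.unusedSectionVars false

open MeasureTheory Filter Matrix
open scoped Topology ENNReal
open Pool.Agent.H73.PZ

namespace Pool.Agent.H23.BR

open Pool.Agent.H23.DM

variable {p : ℕ} [Fact p.Prime] {n : ℕ}
  {X : Type} [TopologicalSpace X] [CompactSpace X]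
  [T2Space X] [SecondCountableTopology X] [MeasurableSpace X] [BorelSpace X]
  [MulAction (SLn p n) X] [ContinuousSMul (SLn p n) X] {L : SLn p n → X → ℝ}

theorem exists_maxc (hL : Sub1 L) (H : Set (SLn p n)) t (ht : t ∈ H) (c : ℝ)
    (hne : ∃ σ : ProbabilityMeasure X, (∀ g ∈ H, Inv1 (fun x => g • x) σ) ∧
      c ≤ kap L t (σ : Measure X)) :
    ∃ σ : ProbabilityMeasure X, (∀ g ∈ H, Inv1 (fun x => g • x) σ) ∧
      c ≤ kap L t (σ : Measure X) ∧
      ∀ E : Set X, MeasurableSet E → (∀ g ∈ H, (fun x : X => g • x) ⁻¹' E =ᵐ[(σ : Measure X)] E) →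
        (σ : Measure X) E = 0 ∨ (σ : Measure X) Eᶜ = 0 := by
  classical
  obtain ⟨Φ, hΦc, hΦ⟩ := exists_strict X
  -- the set of the invariant measures over `h`
  let N : Set (ProbabilityMeasure X) :=
    {σ | ∀ g ∈ H, Inv1 (fun x => g • x) σ}
  have hNcl : IsClosed N := by
    have e : N = (⋂ g ∈ H, {σ : ProbabilityMeasure X | Inv1 (fun x => g • x) σ}) := by
      ext σ
      simp only [N, Set.mem_iInter, Set.mem_ofPred_eq]
    rw [e]
    exact isClosed_biInter fun g _ => isClosed_inv (continuous_const_smul g)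
  obtain ⟨σh, hσh1, hσh3⟩ := hne
  have hNne : N.Nonempty := ⟨σh, hσh1⟩
  have husc : UpperSemicontinuous fun σ : ProbabilityMeasure X =>
      kap L t (σ : Measure X) := by
    rw [upperSemicontinuous_iff_isClosed_preimage]
    intro c'
    exact isClosed_kap hL _ c'
  obtain ⟨σ0, hσ0, hmax0⟩ := UpperSemicontinuousOn.exists_isMaxOn hNne hNcl.isCompact
    (husc.upperSemicontinuousOn N)
  set κ : ℝ := kap L t (σ0 : Measure X) with hκ
  have hmax : ∀ σ ∈ N, kap L t (σ : Measure X) ≤ κ := fun σ hσ => hmax0 hσ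
  have hκ0 : c ≤ κ := hσh3.trans (hmax σh hσh1)
  let N0 : Set (ProbabilityMeasure X) := N ∩ {σ | κ ≤ kap L t (σ : Measure X)}
  have hN0c : IsCompact N0 := (hNcl.inter (isClosed_kap hL _ κ)).isCompact
  obtain ⟨σ, hσ, hσmax⟩ := hN0c.exists_isMaxOn ⟨σ0, hσ0, hκ.le⟩ hΦc.continuousOn
  have hσmax' : ∀ ρ ∈ N0, Φ ρ ≤ Φ σ := fun ρ hρ => hσmax hρ
  refine ⟨σ, hσ.1, hκ0.trans hσ.2, ?_⟩
  intro E hE hEinv
  by_contra hcon
  push Not at hcon
  obtain ⟨hE0, hE1⟩ := hcon
  -- the conditional measures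
  have hcond : ∀ B : Set X, MeasurableSet B → (∀ g ∈ H, (fun x : X => g • x) ⁻¹' B
      =ᵐ[(σ : Measure X)] B) → (σ : Measure X) B ≠ 0 →
      ∃ ρ : ProbabilityMeasure X, ρ ∈ N ∧
        (ρ : Measure X) = ((σ : Measure X) B)⁻¹ • (σ : Measure X).restrict B := by
    intro B hB hBinv hB0
    have hprob : IsProbabilityMeasure (((σ : Measure X) B)⁻¹ • (σ : Measure X).restrict B) := by
      constructor
      rw [Measure.smul_apply, Measure.restrict_apply_univ, smul_eq_mul]
      exact ENNReal.inv_mul_cancel hB0 (measure_ne_top _ _)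
    refine ⟨⟨_, hprob⟩, ?_, rfl⟩
    intro g hg
    have h1 : MeasurePreserving (fun x : X => g • x) (σ : Measure X) (σ : Measure X) :=
      hσ.1 g hg
    have h2 := h1.restrict_preimage hB
    have h3 : (σ : Measure X).restrict ((fun x : X => g • x) ⁻¹' B) =
        (σ : Measure X).restrict B := Measure.restrict_congr_set (hBinv g hg)
    rw [h3] at h2
    exact h2.smul_measure _
  have hEc : ∀ g ∈ H, (fun x : X => g • x) ⁻¹' Eᶜ =ᵐ[(σ : Measure X)] Eᶜ := by
    intro g hg
    rw [Set.preimage_compl]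
    exact (hEinv g hg).compl
  obtain ⟨σ1, hσ1, e1⟩ := hcond E hE hEinv hE0
  obtain ⟨σ2, hσ2, e2⟩ := hcond Eᶜ hE.compl hEc hE1
  set τ : ℝ := (σ : Measure X).real E with hτ
  have hτ0 : 0 < τ := ENNReal.toReal_pos hE0 (measure_ne_top _ _)
  have hτc : (σ : Measure X).real Eᶜ = 1 - τ := probReal_compl_eq_one_sub hE
  have hτc0 : 0 < 1 - τ := by
    rw [← hτc]
    exact ENNReal.toReal_pos hE1 (measure_ne_top _ _)
  have hsum : (σ : Measure X) = ENNReal.ofReal τ • (σ1 : Measure X) +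
      ENNReal.ofReal (1 - τ) • (σ2 : Measure X) := by
    rw [e1, e2, ← hτc, hτ, ofReal_measureReal, ofReal_measureReal, smul_smul, smul_smul,
      ENNReal.mul_inv_cancel hE0 (measure_ne_top _ _),
      ENNReal.mul_inv_cancel hE1 (measure_ne_top _ _), one_smul, one_smul,
      Measure.restrict_add_restrict_compl hE]
  have htH : t ∈ H := ht
  have haff := kap_affine hL t hτ0.le (by linarith) (hσ1 _ htH) (hσ2 _ htH) hsum
  have hk1 := hmax σ1 hσ1
  have hk2 := hmax σ2 hσ2
  have hk : κ ≤ kap L t (σ : Measure X) := hσ.2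
  have hk1' : κ ≤ kap L t (σ1 : Measure X) := by
    by_contra hc
    push Not at hc
    have := mul_lt_mul_of_pos_left hc hτ0
    have := mul_le_mul_of_nonneg_left hk2 hτc0.le
    nlinarith
  have hk2' : κ ≤ kap L t (σ2 : Measure X) := by
    by_contra hc
    push Not at hc
    have := mul_lt_mul_of_pos_left hc hτc0
    have := mul_le_mul_of_nonneg_left hk1 hτ0.le
    nlinarith
  have heq := hΦ σ σ1 σ2 τ hτ0 (by linarith) hsum (hσmax' _ ⟨hσ1, hk1'⟩) (hσmax' _ ⟨hσ2, hk2'⟩)
  have h1 : (σ1 : Measure X) Eᶜ = 0 := by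
    rw [e1, Measure.smul_apply, Measure.restrict_apply hE.compl, Set.compl_inter_self,
      measure_empty, smul_zero]
  have h2 : (σ2 : Measure X) Eᶜ = 1 := by
    rw [e2, Measure.smul_apply, Measure.restrict_apply_self, smul_eq_mul,
      ENNReal.inv_mul_cancel hE1 (measure_ne_top _ _)]
  rw [heq, h2] at h1
  exact one_ne_zero h1

end Pool.Agent.H23.BR
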